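import Pool.Agent.H58.FL.Targets

/-!
MP_6a7a6f_gt, row DEG: the degree of the parametrisation of the projective line.
-/

open Topology

namespace Pool.Agent.H17.FL

open Pool.Agent.H58.FL Pool.Agent.H59 Pool.Agent.H48.FR

noncomputable section

lemma inn (a b : Fin 2 → ℂ) : inner ℂ (eu (n := 1) a) (eu (n := 1) b) =
    (starRingEnd ℂ) (a 0) * b 0 + (starRingEnd ℂ) (a 1) * b 1 := by
  rw [PiLp.inner_apply]
  have h : (∑ i : Fin (1 + 1), inner ℂ ((eu (n := 1) a) i) ((eu (n := 1) b) i)) =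
      ∑ i : Fin 2, inner ℂ (a i) (b i) := rfl
  rw [h, Fin.sum_univ_two]
  simp only [RCLike.inner_apply]
  ring

lemma e_conj (x : ℝ) : (starRingEnd ℂ) (Complex.exp (x * Complex.I)) =
    Complex.exp (-(x * Complex.I)) := by
  rw [← Complex.exp_conj]
  congr 1
  simp

lemma at_lo {s t : ℝ} (h0 : 0 ≤ t) (h : t ≤ 1 / 2) : at2 s t =
    ![(Real.cos (Real.pi * t) : ℂ),
      (Real.sin (Real.pi * t) : ℂ) * Complex.exp ((2 * Real.pi * s : ℝ) * Complex.I)] := by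
  have hc : 0 ≤ Real.cos (Real.pi * t) := by
    apply Real.cos_nonneg_of_neg_pi_div_two_le_of_le
    · nlinarith [Real.pi_pos]
    · nlinarith [Real.pi_pos]
  unfold at2
  rw [max_eq_left hc, max_eq_right (by linarith : -Real.cos (Real.pi * t) ≤ 0)]
  push_cast
  simp

lemma at_hi {s t : ℝ} (h0 : 1 / 2 ≤ t) (h : t ≤ 1) : at2 s t =
    ![(Real.cos (Real.pi * t) : ℂ) * Complex.exp ((2 * Real.pi * s : ℝ) * Complex.I),
      (Real.sin (Real.pi * t) : ℂ) * Complex.exp ((2 * Real.pi * s : ℝ) * Complex.I)] := by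
  have hc : Real.cos (Real.pi * t) ≤ 0 := by
    apply Real.cos_nonpos_of_pi_div_two_le_of_le
    · nlinarith [Real.pi_pos]
    · nlinarith [Real.pi_pos]
  unfold at2
  rw [max_eq_right hc, max_eq_left (by linarith : 0 ≤ -Real.cos (Real.pi * t))]
  push_cast
  simp

lemma in_lo {s t s' t' : ℝ} (h0 : 0 ≤ t) (h : t ≤ 1 / 2) (h0' : 0 ≤ t') (h' : t' ≤ 1 / 2) :
    inner ℂ (eu (n := 1) (at2 s t)) (eu (n := 1) (at2 s' t')) =
      ((Real.cos (Real.pi * t) * Real.cos (Real.pi * t') : ℝ) : ℂ) +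
        ((Real.sin (Real.pi * t) * Real.sin (Real.pi * t') : ℝ) : ℂ) *
          Complex.exp ((2 * Real.pi * (s' - s) : ℝ) * Complex.I) := by
  rw [inn, at_lo h0 h, at_lo h0' h']
  simp only [Matrix.cons_val_zero, Matrix.cons_val_one, Matrix.cons_val_fin_one, map_mul,
    Complex.conj_ofReal, e_conj]
  have : Complex.exp ((2 * Real.pi * (s' - s) : ℝ) * Complex.I) =
      Complex.exp (-((2 * Real.pi * s : ℝ) * Complex.I)) *
        Complex.exp ((2 * Real.pi * s' : ℝ) * Complex.I) := by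
    rw [← Complex.exp_add]
    congr 1
    push_cast
    ring
  rw [this]
  push_cast
  ring

lemma in_hi {s t s' t' : ℝ} (h0 : 1 / 2 ≤ t) (h : t ≤ 1) (h0' : 1 / 2 ≤ t') (h' : t' ≤ 1) :
    inner ℂ (eu (n := 1) (at2 s t)) (eu (n := 1) (at2 s' t')) =
      ((Real.cos (Real.pi * (t' - t)) : ℝ) : ℂ) *
          (Complex.exp (-((2 * Real.pi * s : ℝ) * Complex.I)) *
        Complex.exp ((2 * Real.pi * s' : ℝ) * Complex.I)) := by
  rw [inn, at_hi h0 h, at_hi h0' h']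
  simp only [Matrix.cons_val_zero, Matrix.cons_val_one, Matrix.cons_val_fin_one, map_mul,
    Complex.conj_ofReal, e_conj]
  have : Real.cos (Real.pi * (t' - t)) = Real.cos (Real.pi * t) * Real.cos (Real.pi * t') +
      Real.sin (Real.pi * t) * Real.sin (Real.pi * t') := by
    rw [show Real.pi * (t' - t) = Real.pi * t' - Real.pi * t by ring, Real.cos_sub]
    ring
  rw [this]
  push_cast
  ring

lemma ff_eq (hRPM : T_RPM) {x y z : Fin 2 → ℂ} (hx : x ≠ 0) (hy : y ≠ 0) (hz : z ≠ 0) :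
    ff 1 (mk x hx) (mk y hy) (mk z hz) =
      ar (eu (n := 1) x) (eu (n := 1) y) (eu (n := 1) z) / (2 * Real.pi) := by
  obtain ⟨c1, h1, e1⟩ := (hRPM 1).2.2.1 x hx
  obtain ⟨c2, h2, e2⟩ := (hRPM 1).2.2.1 y hy
  obtain ⟨c3, h3, e3⟩ := (hRPM 1).2.2.1 z hz
  unfold ff
  rw [e1, e2, e3]
  congr 1
  unfold ar
  simp only [inner_smul_left, inner_smul_right]
  have : (starRingEnd ℂ c1 * (c2 * inner ℂ (eu (n := 1) x) (eu (n := 1) y)) *
      (starRingEnd ℂ c2 * (c3 * inner ℂ (eu (n := 1) y) (eu (n := 1) z))) *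
      (starRingEnd ℂ c3 * (c1 * inner ℂ (eu (n := 1) z) (eu (n := 1) x)))) =
      ((Complex.normSq c1 * Complex.normSq c2 * Complex.normSq c3 : ℝ) : ℂ) *
      (inner ℂ (eu (n := 1) x) (eu (n := 1) y) * inner ℂ (eu (n := 1) y) (eu (n := 1) z) *
        inner ℂ (eu (n := 1) z) (eu (n := 1) x)) := by
    push_cast
    rw [← Complex.mul_conj c1, ← Complex.mul_conj c2, ← Complex.mul_conj c3]
    ring
  have hp : 0 < Complex.normSq c1 * Complex.normSq c2 * Complex.normSq c3 :=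
    mul_pos (mul_pos (Complex.normSq_pos.2 h1) (Complex.normSq_pos.2 h2))
      (Complex.normSq_pos.2 h3)
  calc _ = (((Complex.normSq c1 * Complex.normSq c2 * Complex.normSq c3 : ℝ) : ℂ) *
      (inner ℂ (eu (n := 1) x) (eu (n := 1) y) * inner ℂ (eu (n := 1) y) (eu (n := 1) z) *
        inner ℂ (eu (n := 1) z) (eu (n := 1) x))).arg := by
        rw [← this]
        congr 1
        ring
    _ = _ := Complex.arg_real_mul _ hp

lemma ff_hi (hRPM : T_RPM) {s1 t1 s2 t2 s3 t3 : ℝ} (a1 : 1 / 2 ≤ t1) (b1 : t1 ≤ 1)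
    (a2 : 1 / 2 ≤ t2) (b2 : t2 ≤ 1) (a3 : 1 / 2 ≤ t3) (b3 : t3 ≤ 1)
    (d12 : |t2 - t1| ≤ 1 / 16) (d23 : |t3 - t2| ≤ 1 / 16) (d31 : |t1 - t3| ≤ 1 / 16) :
    ff 1 (mk (at2 s1 t1) (at2_ne _ _)) (mk (at2 s2 t2) (at2_ne _ _))
      (mk (at2 s3 t3) (at2_ne _ _)) = 0 := by
  have hpos : ∀ x : ℝ, |x| ≤ 1 / 16 → 0 < Real.cos (Real.pi * x) := by
    intro x hx
    have := abs_le.1 hx
    apply Real.cos_pos_of_mem_Ioo
    constructor
    · nlinarith [Real.pi_pos]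
    · nlinarith [Real.pi_pos]
  rw [ff_eq hRPM]
  unfold ar
  rw [in_hi a1 b1 a2 b2, in_hi a2 b2 a3 b3, in_hi a3 b3 a1 b1]
  have h1 : ∀ x : ℝ, Complex.exp (-((2 * Real.pi * x : ℝ) * Complex.I)) *
      Complex.exp ((2 * Real.pi * x : ℝ) * Complex.I) = 1 := by
    intro x
    rw [← Complex.exp_add]
    simp
  have : ((Real.cos (Real.pi * (t2 - t1)) : ℝ) : ℂ) *
          (Complex.exp (-((2 * Real.pi * s1 : ℝ) * Complex.I)) *
        Complex.exp ((2 * Real.pi * s2 : ℝ) * Complex.I)) *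
      (((Real.cos (Real.pi * (t3 - t2)) : ℝ) : ℂ) *
          (Complex.exp (-((2 * Real.pi * s2 : ℝ) * Complex.I)) *
        Complex.exp ((2 * Real.pi * s3 : ℝ) * Complex.I))) *
      (((Real.cos (Real.pi * (t1 - t3)) : ℝ) : ℂ) *
          (Complex.exp (-((2 * Real.pi * s3 : ℝ) * Complex.I)) *
        Complex.exp ((2 * Real.pi * s1 : ℝ) * Complex.I))) =
      ((Real.cos (Real.pi * (t2 - t1)) * Real.cos (Real.pi * (t3 - t2)) *
        Real.cos (Real.pi * (t1 - t3)) : ℝ) : ℂ) := by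
    push_cast
    calc _ = (Complex.cos (Real.pi * (t2 - t1)) * Complex.cos (Real.pi * (t3 - t2)) *
        Complex.cos (Real.pi * (t1 - t3))) *
        ((Complex.exp (-((2 * Real.pi * s1 : ℝ) * Complex.I)) *
          Complex.exp ((2 * Real.pi * s1 : ℝ) * Complex.I)) *
        (Complex.exp (-((2 * Real.pi * s2 : ℝ) * Complex.I)) *
          Complex.exp ((2 * Real.pi * s2 : ℝ) * Complex.I)) *
        (Complex.exp (-((2 * Real.pi * s3 : ℝ) * Complex.I)) *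
          Complex.exp ((2 * Real.pi * s3 : ℝ) * Complex.I))) := by
          push_cast
          ring
      _ = _ := by rw [h1, h1, h1]; ring
  rw [this, Complex.arg_ofReal_of_nonneg, zero_div]
  exact (mul_pos (mul_pos (hpos _ d12) (hpos _ d23)) (hpos _ d31)).le

lemma arg_small {z : ℂ} (h0 : 0 < z.re) (h : 2 * |z.im| ≤ z.re) : |z.arg| ≤ Real.pi / 6 := by
  have hz : 0 < ‖z‖ := lt_of_lt_of_le h0 (Complex.re_le_norm z)
  have h1 : |z.im / ‖z‖| ≤ 1 / 2 := by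
    rw [abs_div, abs_of_pos hz, div_le_iff₀ hz]
    have := Complex.re_le_norm z
    linarith
  have h2 := abs_le.1 h1
  rw [Complex.arg_of_re_nonneg h0.le, abs_le]
  have hpi := Real.pi_pos
  constructor
  · rw [Real.le_arcsin_iff_sin_le' ⟨by linarith, by linarith⟩, Real.sin_neg, Real.sin_pi_div_six]
    linarith [h2.1]
  · rw [Real.arcsin_le_iff_le_sin' ⟨by linarith, by linarith⟩, Real.sin_pi_div_six]
    linarith [h2.2]

lemma lo_small {s t s' t' : ℝ} (h0 : 0 ≤ t) (h : t ≤ 1 / 2) (h0' : 0 ≤ t') (h' : t' ≤ 1 / 2)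
    (ds : |s' - s| ≤ 1 / 16) (dt : |t' - t| ≤ 1 / 16) :
    inner ℂ (eu (n := 1) (at2 s t)) (eu (n := 1) (at2 s' t')) ≠ 0 ∧
    |(inner ℂ (eu (n := 1) (at2 s t)) (eu (n := 1) (at2 s' t'))).arg| ≤ Real.pi / 6 := by
  have hpi := Real.pi_pos
  have hpi2 : Real.pi < 3.15 := Real.pi_lt_d2
  set c := Real.cos (Real.pi * t) * Real.cos (Real.pi * t') with hc
  set σ := Real.sin (Real.pi * t) * Real.sin (Real.pi * t') with hσ
  have hcs : c + σ = Real.cos (Real.pi * (t' - t)) := by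
    rw [hc, hσ, show Real.pi * (t' - t) = Real.pi * t' - Real.pi * t by ring, Real.cos_sub]
    ring
  have e := in_lo (s := s) (s' := s') h0 h h0' h'
  rw [← hc, ← hσ] at e
  have hre : (inner ℂ (eu (n := 1) (at2 s t)) (eu (n := 1) (at2 s' t'))).re =
      c + σ * Real.cos (2 * Real.pi * (s' - s)) := by
    rw [e, Complex.add_re, Complex.re_ofReal_mul, Complex.exp_ofReal_mul_I_re, Complex.ofReal_re]
  have him : (inner ℂ (eu (n := 1) (at2 s t)) (eu (n := 1) (at2 s' t'))).im =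
      σ * Real.sin (2 * Real.pi * (s' - s)) := by
    rw [e, Complex.add_im, Complex.im_ofReal_mul, Complex.exp_ofReal_mul_I_im, Complex.ofReal_im,
      zero_add]
  have s1 : 0 ≤ Real.sin (Real.pi * t) :=
    Real.sin_nonneg_of_nonneg_of_le_pi (by positivity) (by nlinarith)
  have s2 : 0 ≤ Real.sin (Real.pi * t') :=
    Real.sin_nonneg_of_nonneg_of_le_pi (by positivity) (by nlinarith)
  have σ0 : 0 ≤ σ := mul_nonneg s1 s2
  have σ1 : σ ≤ 1 := mul_le_one₀ (Real.sin_le_one _) s2 (Real.sin_le_one _)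
  have b1 : (9 : ℝ) / 10 < Real.cos (Real.pi * (t' - t)) := by
    have h1 := Real.one_sub_sq_div_two_le_cos (x := Real.pi * (t' - t))
    have h2 : |Real.pi * (t' - t)| ≤ 1 / 4 := by
      rw [abs_mul, abs_of_pos hpi]
      nlinarith [abs_nonneg (t' - t)]
    have h3 : (Real.pi * (t' - t)) ^ 2 ≤ (1 / 4) ^ 2 := by
      rw [← sq_abs]
      exact pow_le_pow_left₀ (abs_nonneg _) h2 2
    nlinarith
  have a1 : |2 * Real.pi * (s' - s)| ≤ 2 / 5 := by
    rw [abs_mul, abs_of_pos (by positivity : (0 : ℝ) < 2 * Real.pi)]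
    nlinarith [abs_nonneg (s' - s)]
  have b2 : (23 : ℝ) / 25 ≤ Real.cos (2 * Real.pi * (s' - s)) := by
    have h1 := Real.one_sub_sq_div_two_le_cos (x := 2 * Real.pi * (s' - s))
    have h3 : (2 * Real.pi * (s' - s)) ^ 2 ≤ (2 / 5) ^ 2 := by
      rw [← sq_abs]
      exact pow_le_pow_left₀ (abs_nonneg _) a1 2
    nlinarith
  have b3 : |Real.sin (2 * Real.pi * (s' - s))| ≤ 2 / 5 :=
    (Real.abs_sin_le_abs).trans a1
  have hr : (41 : ℝ) / 50 ≤ (inner ℂ (eu (n := 1) (at2 s t)) (eu (n := 1) (at2 s' t'))).re := by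
    rw [hre]
    nlinarith [mul_nonneg σ0 (by linarith : (0 : ℝ) ≤ Real.cos (2 * Real.pi * (s' - s)) - 23 / 25)]
  have hi : |(inner ℂ (eu (n := 1) (at2 s t)) (eu (n := 1) (at2 s' t'))).im| ≤ 2 / 5 := by
    rw [him, abs_mul, abs_of_nonneg σ0]
    calc _ ≤ 1 * |Real.sin (2 * Real.pi * (s' - s))| :=
          mul_le_mul_of_nonneg_right σ1 (abs_nonneg _)
      _ ≤ _ := by linarith
  refine ⟨?_, arg_small (by linarith) (by linarith)⟩
  intro h
  rw [h] at hr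
  norm_num at hr

/-- the phase of an edge -/
def th (a b : Fin 2 → ℂ) : ℝ := (inner ℂ (eu (n := 1) a) (eu (n := 1) b)).arg / (2 * Real.pi)

lemma ff_lo (hINT : T_INT) (hRPM : T_RPM) {s1 t1 s2 t2 s3 t3 : ℝ} (a1 : 0 ≤ t1)
    (b1 : t1 ≤ 1 / 2) (a2 : 0 ≤ t2) (b2 : t2 ≤ 1 / 2) (a3 : 0 ≤ t3) (b3 : t3 ≤ 1 / 2)
    (d12 : |t2 - t1| ≤ 1 / 16) (d23 : |t3 - t2| ≤ 1 / 16) (d13 : |t3 - t1| ≤ 1 / 16)
    (e12 : |s2 - s1| ≤ 1 / 16) (e23 : |s3 - s2| ≤ 1 / 16) (e13 : |s3 - s1| ≤ 1 / 16) :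
    ff 1 (mk (at2 s1 t1) (at2_ne _ _)) (mk (at2 s2 t2) (at2_ne _ _))
      (mk (at2 s3 t3) (at2_ne _ _)) =
      th (at2 s2 t2) (at2 s3 t3) - th (at2 s1 t1) (at2 s3 t3) + th (at2 s1 t1) (at2 s2 t2) := by
  have hpi := Real.pi_pos
  obtain ⟨n12, g12⟩ := lo_small (s := s1) (s' := s2) a1 b1 a2 b2 e12 d12
  obtain ⟨n23, g23⟩ := lo_small (s := s2) (s' := s3) a2 b2 a3 b3 e23 d23
  obtain ⟨n13, g13⟩ := lo_small (s := s1) (s' := s3) a1 b1 a3 b3 e13 d13
  obtain ⟨k, hk⟩ := (hINT (EuclideanSpace ℂ (Fin (1 + 1)))).2 _ _ _ n12 n23 n13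
  rw [ff_eq hRPM]
  have hb : ∀ x : ℝ, |x| ≤ Real.pi / 6 → |x / (2 * Real.pi)| ≤ 1 / 12 := by
    intro x hx
    rw [abs_div, abs_of_pos (by positivity : (0 : ℝ) < 2 * Real.pi),
      div_le_iff₀ (by positivity)]
    linarith
  have h12 := abs_le.1 (hb _ g12)
  have h23 := abs_le.1 (hb _ g23)
  have h13 := abs_le.1 (hb _ g13)
  have har : |ar (eu (n := 1) (at2 s1 t1)) (eu (n := 1) (at2 s2 t2)) (eu (n := 1) (at2 s3 t3)) /
      (2 * Real.pi)| ≤ 1 / 2 := by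
    rw [abs_div, abs_of_pos (by positivity : (0 : ℝ) < 2 * Real.pi),
      div_le_iff₀ (by positivity)]
    have := Complex.abs_arg_le_pi (inner ℂ (eu (n := 1) (at2 s1 t1)) (eu (n := 1) (at2 s2 t2)) *
      inner ℂ (eu (n := 1) (at2 s2 t2)) (eu (n := 1) (at2 s3 t3)) *
      inner ℂ (eu (n := 1) (at2 s3 t3)) (eu (n := 1) (at2 s1 t1)))
    unfold ar
    linarith
  have har' := abs_le.1 har
  have hk0 : k = 0 := by
    have l1 : ((k : ℤ) : ℝ) < 1 := by linarith [h12.1, h23.1, h13.2, har'.2]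
    have l2 : (-1 : ℝ) < ((k : ℤ) : ℝ) := by linarith [h12.2, h23.2, h13.1, har'.1]
    have l1' : k < 1 := by exact_mod_cast l1
    have l2' : -1 < k := by exact_mod_cast l2
    omega
  rw [hk0] at hk
  unfold th
  push_cast at hk
  linarith

lemma th_vert {s t t' : ℝ} (h0 : 0 ≤ t) (h : t ≤ 1 / 2) (h0' : 0 ≤ t') (h' : t' ≤ 1 / 2) :
    th (at2 s t) (at2 s t') = 0 := by
  unfold th
  rw [in_lo h0 h h0' h', sub_self, mul_zero]
  simp only [Complex.ofReal_zero, zero_mul, Complex.exp_zero, mul_one]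
  rw [← Complex.ofReal_add, Complex.arg_ofReal_of_nonneg, zero_div]
  have : Real.cos (Real.pi * t) * Real.cos (Real.pi * t') +
      Real.sin (Real.pi * t) * Real.sin (Real.pi * t') = Real.cos (Real.pi * t' - Real.pi * t) := by
    rw [Real.cos_sub]
    ring
  rw [this]
  apply Real.cos_nonneg_of_neg_pi_div_two_le_of_le
  · nlinarith [Real.pi_pos]
  · nlinarith [Real.pi_pos]

lemma th_zero (s s' : ℝ) : th (at2 s 0) (at2 s' 0) = 0 := by
  unfold th
  rw [in_lo le_rfl (by norm_num) le_rfl (by norm_num)]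
  simp

lemma th_half {s s' : ℝ} (h0 : 0 ≤ s' - s) (h : s' - s ≤ 1 / 2) :
    th (at2 s (1 / 2)) (at2 s' (1 / 2)) = s' - s := by
  have hpi := Real.pi_pos
  unfold th
  rw [in_lo (by norm_num) le_rfl (by norm_num) le_rfl]
  have h1 : Real.pi * (1 / 2) = Real.pi / 2 := by ring
  rw [h1, Real.cos_pi_div_two, Real.sin_pi_div_two]
  simp only [mul_zero, Complex.ofReal_zero, zero_add, mul_one, Complex.ofReal_one, one_mul]
  rw [Complex.arg_exp_mul_I, toIocMod_eq_self .. |>.2]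
  · field_simp
  · constructor
    · nlinarith
    · nlinarith

theorem pf_DEG (hINT : T_INT) (hRPM : T_RPM) (_hSMC : T_SMC) (_hUNI : T_UNI) (_hMUL : T_MUL) :
    T_DEG := by
  refine ⟨8, fun K hK => Or.inr ?_⟩
  have hKr : (8 : ℝ) ≤ (K : ℝ) := by exact_mod_cast hK
  have hN : (0 : ℝ) < ((2 * K : ℕ) : ℝ) := by push_cast; linarith
  have hN16 : (16 : ℝ) ≤ ((2 * K : ℕ) : ℝ) := by push_cast; linarith
  set N : ℝ := ((2 * K : ℕ) : ℝ) with hNdef
  have hNK : N = 2 * (K : ℝ) := by rw [hNdef]; push_cast; ring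
  have d1 : 1 / N ≤ 1 / 16 := one_div_le_one_div_of_le (by norm_num) hN16
  have d0 : 0 < 1 / N := by positivity
  have dd : ∀ x : ℝ, (x + 1) / N - x / N = 1 / N := by intro x; ring
  have dd' : ∀ x : ℝ, |(x + 1) / N - x / N| ≤ 1 / 16 := by
    intro x; rw [dd, abs_of_pos d0]; exact d1
  have dz : ∀ x : ℝ, |x / N - x / N| ≤ 1 / 16 := by intro x; simp
  have dm' : ∀ x : ℝ, |x / N - (x + 1) / N| ≤ 1 / 16 := by
    intro x; rw [abs_sub_comm]; exact dd' x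
  -- the cells of the second half
  have hhi : ∀ i j : ℕ, K ≤ j → j < 2 * K →
      ff 1 (aP (2 * K) i j) (aP (2 * K) (i + 1) j) (aP (2 * K) (i + 1) (j + 1)) -
      ff 1 (aP (2 * K) i j) (aP (2 * K) i (j + 1)) (aP (2 * K) (i + 1) (j + 1)) = 0 := by
    intro i j h1 h2
    have h1' : (K : ℝ) ≤ (j : ℝ) := by exact_mod_cast h1
    have h2' : (j : ℝ) + 1 ≤ N := by rw [hNdef]; exact_mod_cast h2
    have e1 : 1 / 2 ≤ (j : ℝ) / N := by rw [le_div_iff₀ hN]; linarith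
    have e2 : (j : ℝ) / N ≤ 1 := by rw [div_le_one hN]; linarith
    have e3 : 1 / 2 ≤ ((j : ℝ) + 1) / N := by rw [le_div_iff₀ hN]; linarith
    have e4 : ((j : ℝ) + 1) / N ≤ 1 := by rw [div_le_one hN]; linarith
    have q1 : ff 1 (aP (2 * K) i j) (aP (2 * K) (i + 1) j) (aP (2 * K) (i + 1) (j + 1)) = 0 :=
      ff_hi hRPM (s1 := (i : ℝ) / N) (s2 := ((i : ℝ) + 1) / N) (s3 := ((i : ℝ) + 1) / N)
        e1 e2 e1 e2 e3 e4 (dz _) (dd' _) (dm' _)
    have q2 : ff 1 (aP (2 * K) i j) (aP (2 * K) i (j + 1)) (aP (2 * K) (i + 1) (j + 1)) = 0 :=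
      ff_hi hRPM (s1 := (i : ℝ) / N) (s2 := (i : ℝ) / N) (s3 := ((i : ℝ) + 1) / N)
        e1 e2 e3 e4 e3 e4 (dd' _) (dz _) (dm' _)
    rw [q1, q2, sub_zero]
  -- the cells of the first half
  let H : ℕ → ℕ → ℝ := fun i j => th (at2 ((i : ℝ) / N) ((j : ℝ) / N))
    (at2 (((i : ℝ) + 1) / N) ((j : ℝ) / N))
  have hlo : ∀ i j : ℕ, j < K →
      ff 1 (aP (2 * K) i j) (aP (2 * K) (i + 1) j) (aP (2 * K) (i + 1) (j + 1)) -
      ff 1 (aP (2 * K) i j) (aP (2 * K) i (j + 1)) (aP (2 * K) (i + 1) (j + 1)) =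
        H i j - H i (j + 1) := by
    intro i j h1
    have h1' : (j : ℝ) + 1 ≤ (K : ℝ) := by exact_mod_cast h1
    have h0' : (0 : ℝ) ≤ (j : ℝ) := Nat.cast_nonneg j
    have e1 : 0 ≤ (j : ℝ) / N := by positivity
    have e2 : (j : ℝ) / N ≤ 1 / 2 := by rw [div_le_iff₀ hN]; linarith
    have e3 : 0 ≤ ((j : ℝ) + 1) / N := by positivity
    have e4 : ((j : ℝ) + 1) / N ≤ 1 / 2 := by rw [div_le_iff₀ hN]; linarith
    have q1 : ff 1 (aP (2 * K) i j) (aP (2 * K) (i + 1) j) (aP (2 * K) (i + 1) (j + 1)) = _ :=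
      ff_lo hINT hRPM (s1 := (i : ℝ) / N) (s2 := ((i : ℝ) + 1) / N) (s3 := ((i : ℝ) + 1) / N)
        (t1 := (j : ℝ) / N) (t2 := (j : ℝ) / N) (t3 := ((j : ℝ) + 1) / N)
        e1 e2 e1 e2 e3 e4 (dz _) (dd' _) (dd' _) (dd' _) (dz _) (dd' _)
    have q2 : ff 1 (aP (2 * K) i j) (aP (2 * K) i (j + 1)) (aP (2 * K) (i + 1) (j + 1)) = _ :=
      ff_lo hINT hRPM (s1 := (i : ℝ) / N) (s2 := (i : ℝ) / N) (s3 := ((i : ℝ) + 1) / N)
        (t1 := (j : ℝ) / N) (t2 := ((j : ℝ) + 1) / N) (t3 := ((j : ℝ) + 1) / N)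
        e1 e2 e3 e4 e3 e4 (dd' _) (dz _) (dd' _) (dz _) (dd' _) (dd' _)
    rw [q1, q2, th_vert e1 e2 e3 e4, th_vert e1 e2 e3 e4]
    have hH : H i (j + 1) = th (at2 ((i : ℝ) / N) (((j : ℝ) + 1) / N))
        (at2 (((i : ℝ) + 1) / N) (((j : ℝ) + 1) / N)) := by
      simp only [H]
      rw [Nat.cast_add, Nat.cast_one]
    rw [hH]
    simp only [H]
    ring
  have hcol : ∀ i : ℕ, ∑ j ∈ Finset.range (2 * K),
      (ff 1 (aP (2 * K) i j) (aP (2 * K) (i + 1) j) (aP (2 * K) (i + 1) (j + 1)) -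
      ff 1 (aP (2 * K) i j) (aP (2 * K) i (j + 1)) (aP (2 * K) (i + 1) (j + 1))) = -(1 / N) := by
    intro i
    have hs := Finset.sum_range_add_sum_Ico (fun j : ℕ =>
      (ff 1 (aP (2 * K) i j) (aP (2 * K) (i + 1) j) (aP (2 * K) (i + 1) (j + 1)) -
      ff 1 (aP (2 * K) i j) (aP (2 * K) i (j + 1)) (aP (2 * K) (i + 1) (j + 1))))
      (by omega : K ≤ 2 * K)
    rw [← hs, Finset.sum_eq_zero (s := Finset.Ico K (2 * K)) (fun j hj => hhi i j
      (Finset.mem_Ico.1 hj).1 (Finset.mem_Ico.1 hj).2), add_zero,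
      Finset.sum_congr rfl (fun j hj => hlo i j (Finset.mem_range.1 hj)),
      Finset.sum_range_sub']
    have h0 : H i 0 = 0 := by
      simp only [H]
      rw [Nat.cast_zero, zero_div]
      exact th_zero _ _
    have h1 : H i K = 1 / N := by
      simp only [H]
      have e : (K : ℝ) / N = 1 / 2 := by rw [hNK]; field_simp
      rw [e, th_half (by rw [dd]; exact d0.le) (by rw [dd]; linarith), dd]
    rw [h0, h1, zero_sub]
  unfold dg
  rw [Finset.sum_congr rfl fun i _ => hcol i]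
  rw [Finset.sum_const, Finset.card_range, nsmul_eq_mul]
  rw [← hNdef]
  field_simp

end

end Pool.Agent.H17.FL
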