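import Pool.Agent.H58.FL.TargetsD

/-!
# P4B: one edge of a wheel with four spokes, small phase
-/

set_option autoImplicit false

open Pool.Agent.H58.FL Pool.Agent.H59 Pool.Agent.H48.FR

namespace Pool.Agent.H17.FL

private theorem key (φ : ℝ) (h1 : 3 * Real.pi / 20 ≤ φ) (h2 : φ ≤ 3 * Real.pi / 8) :
    Real.cos φ + Real.cos (73 * Real.pi / 120 - 2 / 5 * φ) < 743 / 1000 := by
  have p1 := Real.pi_gt_d4
  have p2 := Real.pi_lt_d4
  obtain ⟨w, hw⟩ : ∃ w : ℝ, w = (φ - 3 * Real.pi / 20) / 2 := ⟨_, rfl⟩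
  have hw0 : 0 ≤ w := by rw [hw]; linarith
  have hw1 : w ≤ 2 / 5 := by rw [hw]; linarith
  -- the value at the left end
  have c0 : Real.cos (3 * Real.pi / 20) ≤ 1 - (3 * Real.pi / 20) ^ 2 / 2 +
      (3 * Real.pi / 20) ^ 4 * (5 / 96) := by
    have h := Real.cos_bound (x := 3 * Real.pi / 20) (by rw [abs_of_nonneg (by linarith)]; linarith)
    rw [abs_of_nonneg (show (0 : ℝ) ≤ 3 * Real.pi / 20 by linarith)] at h
    have := (abs_le.1 h).2
    linarith
  have s0 := Real.sin_gt_sub_cube (x := 29 * Real.pi / 600) (by linarith)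
  have e0 : Real.cos (73 * Real.pi / 120 - 2 / 5 * (3 * Real.pi / 20)) =
      -Real.sin (29 * Real.pi / 600) := by
    rw [← Real.cos_add_pi_div_two]
    congr 1
    ring
  have v0 : Real.cos (3 * Real.pi / 20) +
      Real.cos (73 * Real.pi / 120 - 2 / 5 * (3 * Real.pi / 20)) < 743 / 1000 := by
    rw [e0]
    have q1 : (471 / 1000 : ℝ) ≤ 3 * Real.pi / 20 := by linarith
    have q2 : 3 * Real.pi / 20 ≤ (4713 / 10000 : ℝ) := by linarith
    have q3 : (1518 / 10000 : ℝ) ≤ 29 * Real.pi / 600 := by linarith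
    have q4 : 29 * Real.pi / 600 ≤ (1519 / 10000 : ℝ) := by linarith
    have r1 : (471 / 1000 : ℝ) ^ 2 ≤ (3 * Real.pi / 20) ^ 2 := pow_le_pow_left₀ (by norm_num) q1 2
    have r2 : (3 * Real.pi / 20) ^ 4 ≤ (4713 / 10000 : ℝ) ^ 4 :=
      pow_le_pow_left₀ (by linarith) q2 4
    have r3 : (29 * Real.pi / 600) ^ 3 ≤ (1519 / 10000 : ℝ) ^ 3 :=
      pow_le_pow_left₀ (by linarith) q4 3
    norm_num at r1 r2 r3
    nlinarith
  -- the differences
  have d1 : Real.cos φ - Real.cos (3 * Real.pi / 20) =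
      -2 * Real.sin ((φ + 3 * Real.pi / 20) / 2) * Real.sin w := by
    rw [hw]
    exact Real.cos_sub_cos _ _
  have d2 : Real.cos (73 * Real.pi / 120 - 2 / 5 * φ) -
      Real.cos (73 * Real.pi / 120 - 2 / 5 * (3 * Real.pi / 20)) =
      2 * Real.sin (((73 * Real.pi / 120 - 2 / 5 * φ) +
        (73 * Real.pi / 120 - 2 / 5 * (3 * Real.pi / 20))) / 2) * Real.sin (2 / 5 * w) := by
    rw [Real.cos_sub_cos]
    have e : ((73 * Real.pi / 120 - 2 / 5 * φ) -
        (73 * Real.pi / 120 - 2 / 5 * (3 * Real.pi / 20))) / 2 = -(2 / 5 * w) := by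
      rw [hw]; ring
    rw [e, Real.sin_neg]
    ring
  have b1 : (44 / 100 : ℝ) ≤ Real.sin ((φ + 3 * Real.pi / 20) / 2) := by
    have h3 : Real.sin (3 * Real.pi / 20) ≤ Real.sin ((φ + 3 * Real.pi / 20) / 2) :=
      Real.sin_le_sin_of_le_of_le_pi_div_two (by linarith) (by linarith) (by linarith)
    have h4 := Real.sin_gt_sub_cube (x := 3 * Real.pi / 20) (by linarith)
    have q1 : (471 / 1000 : ℝ) ≤ 3 * Real.pi / 20 := by linarith
    have q2 : 3 * Real.pi / 20 ≤ (4713 / 10000 : ℝ) := by linarith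
    have r3 : (3 * Real.pi / 20) ^ 3 ≤ (4713 / 10000 : ℝ) ^ 3 :=
      pow_le_pow_left₀ (by linarith) q2 3
    norm_num at r3
    nlinarith
  have b2 : Real.sin (2 / 5 * w) ≤ 2 / 5 * w := Real.sin_le (by linarith)
  have b2' : 0 ≤ Real.sin (2 / 5 * w) :=
    Real.sin_nonneg_of_nonneg_of_le_pi (by linarith) (by linarith)
  have b3 : w - w ^ 3 / 6 ≤ Real.sin w := by
    rcases eq_or_lt_of_le hw0 with h | h
    · rw [← h]; simp
    · exact (Real.sin_gt_sub_cube h).le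
  have b4 : Real.sin (((73 * Real.pi / 120 - 2 / 5 * φ) +
        (73 * Real.pi / 120 - 2 / 5 * (3 * Real.pi / 20))) / 2) ≤ 1 := Real.sin_le_one _
  have b5 : 0 ≤ Real.sin w := Real.sin_nonneg_of_nonneg_of_le_pi hw0 (by linarith)
  have g1 : Real.cos (73 * Real.pi / 120 - 2 / 5 * φ) -
      Real.cos (73 * Real.pi / 120 - 2 / 5 * (3 * Real.pi / 20)) ≤ 4 / 5 * w := by
    rw [d2]
    nlinarith
  have g2 : Real.cos φ - Real.cos (3 * Real.pi / 20) ≤ -(88 / 100) * (w - w ^ 3 / 6) := by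
    rw [d1]
    nlinarith [mul_le_mul_of_nonneg_right b1 b5]
  have g3 : 4 / 5 * w ≤ 88 / 100 * (w - w ^ 3 / 6) := by
    have : w ^ 3 ≤ w * (2 / 5) ^ 2 := by
      have h5 : w ^ 2 ≤ (2 / 5 : ℝ) ^ 2 := pow_le_pow_left₀ hw0 hw1 2
      calc w ^ 3 = w * w ^ 2 := by ring
        _ ≤ w * (2 / 5) ^ 2 := mul_le_mul_of_nonneg_left h5 hw0
    nlinarith
  linarith

/-- P4B: one edge of a wheel with four spokes, small phase -/
theorem pf_P4B (hNU3 : T_NU3) : T_P4B := by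
  intro T φ γ hT _ hφ1 hφ2 hγ0 hγ1 h
  by_contra hcon
  have hcon' : 73 * Real.pi / 120 ≤ γ + 2 / 5 * φ := not_lt.1 hcon
  have p1 := Real.pi_gt_d4
  have p2 := Real.pi_lt_d4
  have hS : (371745 / 1000000 : ℝ) < S4 := hNU3.2.2.2.2.2.1.1
  have hk := key φ hφ1 hφ2
  have h1 : Real.cos γ ≤ Real.cos (73 * Real.pi / 120 - 2 / 5 * φ) :=
    Real.cos_le_cos_of_nonneg_of_le_pi (by linarith) hγ1 (by linarith)
  have h2 : Real.cos (73 * Real.pi / 120 - 2 / 5 * φ) ≤ Real.pi / 24 := by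
    have h3 : Real.cos (73 * Real.pi / 120 - 2 / 5 * φ) ≤ Real.cos (Real.pi / 2 - Real.pi / 24) :=
      Real.cos_le_cos_of_nonneg_of_le_pi (by linarith) (by linarith) (by linarith)
    rw [Real.cos_pi_div_two_sub] at h3
    exact h3.trans (Real.sin_le (by linarith))
  have h4 : T * Real.cos γ ≤ T * Real.cos (73 * Real.pi / 120 - 2 / 5 * φ) :=
    mul_le_mul_of_nonneg_left h1 (by linarith)
  have h5 : 0 ≤ (T - 1) * (S4 - Real.cos (73 * Real.pi / 120 - 2 / 5 * φ)) :=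
    mul_nonneg (by linarith) (by linarith)
  nlinarith

end Pool.Agent.H17.FL
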